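import Pool.Agent.Helper89.EX.FN
import Pool.Agent.Helper89.EX.DG

/-!
# Project KT (MP_5176ab_co): definitions and simple facts

THEOREM.  Let `r ≥ 3` and let `G` be a bipartite graph with a side of at most `C(r,2)` vertices, let `σ`
be the crosscut number of `G⁺`, and let `r ≥ 4` or `σ = 3`.  Then
`ex_r(n, G⁺) ≤ (σ - 1) (C(n,r-1) - C(n-x,r-1)) + ex(n-x, K_r, G) + o(n^(r-1))` for some `x ≤ n`; so the
crosscut formula holds for `(r, G)` iff `ex(n, K_r, G) ≤ (σ - 1 + o(1)) C(n,r-1)`.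
-/

set_option autoImplicit false

namespace Pool.Agent.Helper7.KT

open Finset SimpleGraph Filter Topology
open EX

open scoped Classical

noncomputable section

/-! ### Graphs -/

/-- The neighbours of `v` in `S`. -/
def nb {V : Type} (Γ : SimpleGraph V) (S : Finset V) (v : V) : Finset V := S.filter (Γ.Adj v)

/-- The number of the neighbours of `v` in `S`. -/
def dg {V : Type} (Γ : SimpleGraph V) (S : Finset V) (v : V) : ℕ := (nb Γ S v).card

/-- No `a` vertices of `S` have `t` common neighbours in `S`. -/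
def KF {V : Type} (Γ : SimpleGraph V) (a t : ℕ) (S : Finset V) : Prop :=
  ∀ A ⊆ S, A.card = a → (S.filter fun v => ∀ x ∈ A, Γ.Adj v x).card < t

/-- The number of the cliques with `j` vertices which meet `N`. -/
def km {V : Type} [Fintype V] (Γ : SimpleGraph V) (j : ℕ) (N : Finset V) : ℕ :=
  ((powersetCard j univ).filter fun T : Finset V => Γ.IsClique (T : Set V) ∧ ∃ v ∈ T, v ∈ N).card

/-- `G` is bipartite, the sides have at most `s` and at most `t` vertices. -/
def Bp {U : Type} [Fintype U] (G : SimpleGraph U) (s t : ℕ) : Prop :=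
  ∃ A : Finset U, (∀ u v, G.Adj u v → (u ∈ A ↔ v ∉ A)) ∧ A.card ≤ s ∧
    (univ.filter fun u => u ∉ A).card ≤ t

/-! ### Hypergraphs -/

/-- The graph of the rich pairs. -/
def rg {V : Type} (N : ℕ) (H : Finset (Finset V)) : SimpleGraph V where
  Adj u v := u ≠ v ∧ Rich N H u v
  symm := ⟨fun _ _ h => ⟨h.1.symm, FB.Rich.symm h.2⟩⟩
  loopless := ⟨fun _ h => h.1 rfl⟩

/-- The graph of the rich pairs with the number of petals needed for `G`. -/
def Γr {U V : Type} [Fintype U] (k : ℕ) (G : SimpleGraph U) (H : Finset (Finset V)) :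
    SimpleGraph V := rg (sN k G) H

/-- `H` is a `(k + 1)`-graph without a copy of the expansion of `G`. -/
def Fr {U V : Type} [Fintype U] (k : ℕ) (G : SimpleGraph U) (H : Finset (Finset V)) : Prop :=
  (∀ E ∈ H, E.card = k + 1) ∧ ¬ Contains H (expansion (k + 1) G)

/-- All pairs of `E` are edges of `Γ`. -/
def Cq {V : Type} (Γ : SimpleGraph V) (E : Finset V) : Prop := ∀ u ∈ E, ∀ v ∈ E, u ≠ v → Γ.Adj u v

/-- The vertices of degree at least `δ n`. -/
def Ct {n : ℕ} (Γ : SimpleGraph (Fin n)) (δ : ℝ) : Finset (Fin n) :=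
  univ.filter fun c => δ * n ≤ dg Γ univ c

/-- The edge `E` consists of a vertex `c` of `C` and of neighbours of `c`. -/
def Ce {V : Type} (Γ : SimpleGraph V) (C E : Finset V) : Prop :=
  ∃ c ∈ C, c ∈ E ∧ ∀ v ∈ E, v ≠ c → Γ.Adj c v

/-- The centres of the set `x`. -/
def An {V : Type} (Γ : SimpleGraph V) (H : Finset (Finset V)) (C x : Finset V) : Finset V :=
  C.filter fun c => c ∉ x ∧ insert c x ∈ H ∧ ∀ v ∈ x, Γ.Adj c v

/-- The main inequality. -/
def MI {U : Type} [Fintype U] (r σ : ℕ) (G : SimpleGraph U) : Prop :=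
  ∀ ε : ℝ, 0 < ε → ∀ᶠ n : ℕ in atTop, ∃ x ≤ n, (exr r n (expansion r G) : ℝ) ≤
    ((σ : ℝ) - 1) * ((n.choose (r - 1) : ℝ) - ((n - x).choose (r - 1) : ℝ)) + exK (n - x) r G +
      ε * (n : ℝ) ^ (r - 1)

/-! ### 3-graphs -/

section

variable {V : Type}

/-- `u`, `v`, `w` are different and form an edge. -/
def T3 (H : Finset (Finset V)) (u v w : V) : Prop :=
  u ≠ v ∧ u ≠ w ∧ v ≠ w ∧ ({u, v, w} : Finset V) ∈ H

/-- The number of the edges which contain `u` and `v`. -/
def cd [Fintype V] (H : Finset (Finset V)) (u v : V) : ℕ := (univ.filter fun w => T3 H u v w).card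

theorem t3_swap (H : Finset (Finset V)) (u v w : V) (h : T3 H u v w) : T3 H v u w := by
  obtain ⟨h1, h2, h3, h4⟩ := h
  refine ⟨h1.symm, h3, h2, ?_⟩
  rwa [Finset.insert_comm]

theorem t3_rot (H : Finset (Finset V)) (u v w : V) (h : T3 H u v w) : T3 H u w v := by
  obtain ⟨h1, h2, h3, h4⟩ := h
  refine ⟨h2, h1, h3.symm, ?_⟩
  rwa [Finset.pair_comm]

theorem cd_comm [Fintype V] (H : Finset (Finset V)) (u v : V) : cd H u v = cd H v u := by
  unfold cd
  congr 1
  ext w
  simp only [mem_filter, mem_univ, true_and]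
  exact ⟨t3_swap H u v w, t3_swap H v u w⟩

end

/-- A heavy pair. -/
def hv {n : ℕ} (δ : ℝ) (H : Finset (Finset (Fin n))) (u v : Fin n) : Prop :=
  u ≠ v ∧ δ * n ≤ cd H u v

/-- The number of the heavy pairs at `v`. -/
def hd {n : ℕ} (δ : ℝ) (H : Finset (Finset (Fin n))) (v : Fin n) : ℕ :=
  (univ.filter fun w => hv δ H v w).card

/-- Partners: heavy pairs of vertices in few heavy pairs. -/
def Pt {n : ℕ} (δ : ℝ) (D : ℕ) (H : Finset (Finset (Fin n))) (g v : Fin n) : Prop :=
  hv δ H g v ∧ hd δ H g ≤ D ∧ hd δ H v ≤ D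

/-- Edges with a centre in `C`, the other pair is poor. -/
def tA {V : Type} (Γ : SimpleGraph V) (H : Finset (Finset V)) (C E : Finset V) : Prop :=
  ∃ c ∈ C, ∃ x y, T3 H c x y ∧ E = {c, x, y} ∧ Γ.Adj c x ∧ Γ.Adj c y ∧ ¬ Γ.Adj x y

/-- Edges with a pair of partners, the other pairs are poor. -/
def tB {V : Type} (Γ : SimpleGraph V) (H : Finset (Finset V)) (P : V → V → Prop)
    (E : Finset V) : Prop :=
  ∃ v g u, T3 H v g u ∧ E = {v, g, u} ∧ P g v ∧ ¬ Γ.Adj u v ∧ ¬ Γ.Adj u g

/-- The centres of the poor pair `u v`. -/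
def aa {V : Type} (Γ : SimpleGraph V) (H : Finset (Finset V)) (C : Finset V) (u v : V) :
    Finset V :=
  C.filter fun c => T3 H u v c ∧ Γ.Adj c u ∧ Γ.Adj c v ∧ ¬ Γ.Adj u v

/-- The partners of `v` which serve the poor pair `u v`. -/
def pp {V : Type} [Fintype V] (Γ : SimpleGraph V) (H : Finset (Finset V)) (P : V → V → Prop)
    (u v : V) : Finset V :=
  univ.filter fun g => P g v ∧ T3 H u v g ∧ ¬ Γ.Adj u v ∧ ¬ Γ.Adj u g

/-- A symmetric relation in which every vertex has at most `D` partners. -/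
def Bd {V : Type} [Fintype V] (D : ℕ) (P : V → V → Prop) : Prop :=
  (∀ g v, P g v → P v g) ∧ ∀ v, (univ.filter fun g => P g v).card ≤ D

theorem hv_symm {n : ℕ} (δ : ℝ) (H : Finset (Finset (Fin n))) (u v : Fin n) (h : hv δ H u v) :
    hv δ H v u := by
  refine ⟨h.1.symm, ?_⟩
  rw [cd_comm]
  exact h.2

theorem pt_bd {n : ℕ} (δ : ℝ) (D : ℕ) (H : Finset (Finset (Fin n))) : Bd D (Pt δ D H) := by
  refine ⟨fun g v h => ⟨hv_symm δ H g v h.1, h.2.2, h.2.1⟩, fun v => ?_⟩
  by_cases h : hd δ H v ≤ D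
  · refine (card_le_card ?_).trans h
    intro g hg
    simp only [mem_filter, mem_univ, true_and] at hg ⊢
    exact hv_symm δ H g v hg.1
  · have h1 : (univ.filter fun g => Pt δ D H g v) = ∅ := by
      ext g
      simp only [mem_filter, mem_univ, true_and, notMem_empty, iff_false]
      exact fun h2 => h h2.2.2
    rw [h1]
    simp

end

end Pool.Agent.Helper7.KT
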