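import Pool.Agent.Helper7.KT.St

/-!
# Project KT (MP_5176ab_co): the final theorem from the module statements
-/

set_option autoImplicit false

namespace Pool.Agent.Helper7.KT

open Finset SimpleGraph Filter Topology
open EX

open scoped Classical

noncomputable section

theorem one_le_cross {U : Type} [Fintype U] (r : ℕ) (hr : 3 ≤ r) (G : SimpleGraph U) (hG : G ≠ ⊥) :
    1 ≤ crosscutNumber (expansion r G) := by
  obtain ⟨I, _, hI⟩ := exists_opt r hr G
  rw [← hI]
  exact one_le_cost G hG I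

theorem one_le_side {U : Type} [Fintype U] (G : SimpleGraph U) (hG : G ≠ ⊥) (A : Finset U)
    (hA : ∀ u v, G.Adj u v → (u ∈ A ↔ v ∉ A)) : 1 ≤ (univ.filter fun u => u ∉ A).card := by
  obtain ⟨u, v, huv⟩ := SimpleGraph.ne_bot_iff_exists_adj.1 hG
  rw [Nat.one_le_iff_ne_zero, ← Nat.pos_iff_ne_zero, Finset.card_pos]
  by_cases h : u ∈ A
  · exact ⟨v, by simpa using (hA u v huv).1 h⟩
  · exact ⟨u, by simpa using h⟩

/-- The main inequality in all cases. -/
theorem mi (hMIA : StMIA) (hMIB : StMIB) {U : Type} [Fintype U] (r : ℕ) (hr : 3 ≤ r)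
    (G : SimpleGraph U) (A : Finset U) (hA : ∀ u v, G.Adj u v → (u ∈ A ↔ v ∉ A))
    (hAc : A.card ≤ r.choose 2) (hG : G ≠ ⊥)
    (hσ : 4 ≤ r ∨ crosscutNumber (expansion r G) = 3) :
    MI r (crosscutNumber (expansion r G)) G := by
  rcases Nat.lt_or_ge 3 r with h | h
  · exact hMIA r h U G _ ⟨A, hA, hAc, le_rfl⟩ hG
  · obtain rfl : r = 3 := by omega
    have h3 : crosscutNumber (expansion 3 G) = 3 := by
      rcases hσ with h | h
      · omega
      · exact h
    rw [h3]
    exact hMIB U G _ ⟨A, hA, hAc, le_rfl⟩ hG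

/-- The upper bound. -/
theorem upper (hBET : StBET) (hMIA : StMIA) (hMIB : StMIB) {U : Type} [Fintype U] (r : ℕ)
    (hr : 3 ≤ r) (G : SimpleGraph U) (A : Finset U) (hA : ∀ u v, G.Adj u v → (u ∈ A ↔ v ∉ A))
    (hAc : A.card ≤ r.choose 2) (hG : G ≠ ⊥)
    (hσ : 4 ≤ r ∨ crosscutNumber (expansion r G) = 3) (β : ℝ)
    (hβ : ∀ ε : ℝ, 0 < ε → ∀ᶠ n : ℕ in atTop,
      (exK n r G : ℝ) ≤ (β + ε) * (n.choose (r - 1) : ℝ)) (ε : ℝ) (hε : 0 < ε) :
    ∀ᶠ n : ℕ in atTop, (exr r n (expansion r G) : ℝ) ≤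
      (max ((crosscutNumber (expansion r G) : ℝ) - 1) β + ε) * (n.choose (r - 1) : ℝ) :=
  hBET U G r _ (by omega) (one_le_cross r hr G hG) (mi hMIA hMIB r hr G A hA hAc hG hσ) β hβ ε hε

theorem formula_of_upper {U : Type} [Fintype U] (r : ℕ) (hr : 3 ≤ r) (G : SimpleGraph U)
    (hσ : 2 ≤ crosscutNumber (expansion r G))
    (h : ∀ ε : ℝ, 0 < ε → ∀ᶠ n : ℕ in atTop, (exr r n (expansion r G) : ℝ) ≤
      ((crosscutNumber (expansion r G) : ℝ) - 1 + ε) * (n.choose (r - 1) : ℝ)) :
    CrosscutFormula r G := by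
  refine formula_of_tendsto r G hσ (tendsto_of_bounds _ (fun _ => 0) _ _ (by simp) ?_)
  intro ε hε
  filter_upwards [h ε hε, lower_crosscut' (expansion r G) r (by omega) (by omega) ε hε]
    with n h1 h2
  exact ⟨h2, by simpa using h1⟩

theorem main (hBET : StBET) (hMIA : StMIA) (hMIB : StMIB) (hEXK : StEXK) {U : Type} [Fintype U]
    (r : ℕ) (hr : 3 ≤ r) (G : SimpleGraph U) (A : Finset U)
    (hA : ∀ u v, G.Adj u v → (u ∈ A ↔ v ∉ A)) (hAc : A.card ≤ r.choose 2) (hG : G ≠ ⊥)
    (hr3 : 4 ≤ r ∨ crosscutNumber (expansion r G) = 3) :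
    (∀ β : ℝ, Tendsto (fun n : ℕ => (exK n r G : ℝ) / (n.choose (r - 1) : ℝ)) atTop (𝓝 β) →
      Tendsto (fun n : ℕ => (exr r n (expansion r G) : ℝ) / (n.choose (r - 1) : ℝ)) atTop
        (𝓝 (max ((crosscutNumber (expansion r G) : ℝ) - 1) β))) ∧
    (2 ≤ crosscutNumber (expansion r G) →
      (CrosscutFormula r G ↔ ∀ ε : ℝ, 0 < ε → ∀ᶠ n : ℕ in atTop, (exK n r G : ℝ) ≤
        ((crosscutNumber (expansion r G) : ℝ) - 1 + ε) * (n.choose (r - 1) : ℝ)) ∧
      ((univ.filter fun u => u ∉ A).card ≤ r * (crosscutNumber (expansion r G) - 1) + 1 →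
        CrosscutFormula r G)) := by
  have hup := upper hBET hMIA hMIB r hr G A hA hAc hG hr3
  have h1 := one_le_cross r hr G hG
  have hiff : 2 ≤ crosscutNumber (expansion r G) →
      (CrosscutFormula r G ↔ ∀ ε : ℝ, 0 < ε → ∀ᶠ n : ℕ in atTop, (exK n r G : ℝ) ≤
        ((crosscutNumber (expansion r G) : ℝ) - 1 + ε) * (n.choose (r - 1) : ℝ)) := by
    intro hσ
    constructor
    · intro hF ε hε
      filter_upwards [le_of_formula r G hσ hF ε hε] with n hn
      refine le_trans ?_ hn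
      exact_mod_cast exK_le_exr r n (by omega) G
    · intro h
      refine formula_of_upper r hr G hσ fun ε hε => ?_
      have h2 := hup _ h ε hε
      rwa [max_self] at h2
  refine ⟨fun β hβ => ?_, fun hσ => ⟨hiff hσ, fun ht => (hiff hσ).2 ?_⟩⟩
  · -- the asymptotics
    have hβ' : ∀ ε : ℝ, 0 < ε → ∀ᶠ n : ℕ in atTop,
        (exK n r G : ℝ) ≤ (β + ε) * (n.choose (r - 1) : ℝ) := by
      intro ε hε
      filter_upwards [hβ.eventually (gt_mem_nhds (show β < β + ε by linarith)),
        choose_pos_eventually (r - 1)] with n h2 h3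
      rw [div_lt_iff₀ h3] at h2
      exact h2.le
    refine tendsto_of_bounds _ (fun _ => 0) _ _ (by simp) ?_
    intro ε hε
    filter_upwards [hup β hβ' ε hε, lower_crosscut' (expansion r G) r (by omega) h1 ε hε,
      hβ.eventually (lt_mem_nhds (show β - ε < β by linarith)),
      choose_pos_eventually (r - 1)] with n h2 h3 h4 h5
    refine ⟨?_, by simpa using h2⟩
    rcases le_total ((crosscutNumber (expansion r G) : ℝ) - 1) β with h6 | h6
    · rw [max_eq_right h6]
      rw [lt_div_iff₀ h5] at h4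
      refine h4.le.trans ?_
      exact_mod_cast exK_le_exr r n (by omega) G
    · rw [max_eq_left h6]
      exact h3
  · -- the explicit range
    intro ε hε
    have h2 := hEXK r _ hr (one_le_side G hG A hA) U G ⟨A, hA, hAc, le_rfl⟩ ε hε
    filter_upwards [h2] with n hn
    refine hn.trans (mul_le_mul_of_nonneg_right ?_ (Nat.cast_nonneg _))
    have hr0 : (0 : ℝ) < r := by
      have : (3 : ℝ) ≤ r := by exact_mod_cast hr
      linarith
    have h3 : ((univ.filter fun u => u ∉ A).card : ℝ) ≤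
        (r : ℝ) * ((crosscutNumber (expansion r G) : ℝ) - 1) + 1 := by
      have h4 : (((univ.filter fun u => u ∉ A).card : ℕ) : ℝ) ≤
          ((r * (crosscutNumber (expansion r G) - 1) + 1 : ℕ) : ℝ) := by exact_mod_cast ht
      refine h4.trans (le_of_eq ?_)
      rw [Nat.cast_add, Nat.cast_mul, Nat.cast_sub h1]
      simp
    have h5 : (((univ.filter fun u => u ∉ A).card : ℝ) - 1) / r ≤
        (crosscutNumber (expansion r G) : ℝ) - 1 := by
      rw [div_le_iff₀ hr0]
      linarith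
    linarith

/-- Complete bipartite graphs. -/
theorem kst (hBET : StBET) (hMIA : StMIA) (hMIB : StMIB) (hEXK : StEXK) (hCRK : StCRK)
    (r t : ℕ) (hr : 3 ≤ r) (ht : r.choose 2 ≤ t) (ht' : t ≤ r * (r.choose 2 - 1) + 1) :
    crosscutNumber (expansion r (completeBipartiteGraph (Fin (r.choose 2)) (Fin t))) =
        r.choose 2 ∧
      CrosscutFormula r (completeBipartiteGraph (Fin (r.choose 2)) (Fin t)) := by
  have hc : 3 ≤ r.choose 2 := by
    calc 3 = Nat.choose 3 2 := rfl
      _ ≤ r.choose 2 := Nat.choose_le_choose 2 hr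
  have h1 := hCRK r (r.choose 2) t hr (by omega) ht
  refine ⟨h1, ?_⟩
  set A : Finset (Fin (r.choose 2) ⊕ Fin t) := univ.filter fun u => ∃ i, u = Sum.inl i with hAd
  have hA : ∀ u v, (completeBipartiteGraph (Fin (r.choose 2)) (Fin t)).Adj u v →
      (u ∈ A ↔ v ∉ A) := by
    intro u v huv
    rcases u with u | u <;> rcases v with v | v <;>
      simp_all [completeBipartiteGraph]
  have hAc : A.card ≤ r.choose 2 := by
    have h2 : A ⊆ (univ : Finset (Fin (r.choose 2))).image Sum.inl := by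
      intro u hu
      obtain ⟨i, rfl⟩ := (mem_filter.1 hu).2
      exact mem_image_of_mem _ (mem_univ _)
    refine (card_le_card h2).trans (card_image_le.trans ?_)
    simp
  have hBc : (univ.filter fun u => u ∉ A).card ≤ t := by
    have h2 : (univ.filter fun u => u ∉ A) ⊆ (univ : Finset (Fin t)).image Sum.inr := by
      intro u hu
      have h3 := (mem_filter.1 hu).2
      rcases u with u | u
      · exact absurd (mem_filter.2 ⟨mem_univ _, u, rfl⟩) h3
      · exact mem_image_of_mem _ (mem_univ _)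
    refine (card_le_card h2).trans (card_image_le.trans ?_)
    simp
  have hG : completeBipartiteGraph (Fin (r.choose 2)) (Fin t) ≠ ⊥ := by
    rw [SimpleGraph.ne_bot_iff_exists_adj]
    exact ⟨Sum.inl ⟨0, by omega⟩, Sum.inr ⟨0, by omega⟩, by simp [completeBipartiteGraph]⟩
  have hr3 : 4 ≤ r ∨ crosscutNumber (expansion r
      (completeBipartiteGraph (Fin (r.choose 2)) (Fin t))) = 3 := by
    rcases Nat.lt_or_ge 3 r with h | h
    · exact Or.inl h
    · obtain rfl : r = 3 := by omega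
      right
      rw [h1]
      rfl
  refine ((main hBET hMIA hMIB hEXK r hr _ A hA hAc hG hr3).2 (by rw [h1]; omega)).2 ?_
  rw [h1]
  have h5 := hBc.trans ht'
  refine le_trans (le_of_eq ?_) h5
  congr 1
  ext u
  simp only [mem_filter, mem_univ, true_and]

end

end Pool.Agent.Helper7.KT
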