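import Pool.Agent.Helper7.KT.St

/-!
# Project KT (MP_5176ab_co), module POA: few edges with a sparse relation
-/

set_option autoImplicit false

namespace Pool.Agent.Helper7.KT

open Finset SimpleGraph Filter Topology
open EX

open scoped Classical

theorem hPOA (hCDR : StCDR) (hRBW : StRBW) : StPOA := by
  intro U _ G s t hB ε hε
  set N : ℕ := sN 2 G with hN
  obtain ⟨δ, hδ, h⟩ := hRBW U G s t hB (ε / (N + 1)) (by positivity)
  refine ⟨δ, hδ, fun δ' h1 h2 => ?_⟩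
  filter_upwards [h δ' h1 h2] with n hn H hH Q hQ1 hQ2
  set Γ := Γr 2 G H with hΓ
  obtain ⟨E₀, hE₀⟩ : ∃ E₀ : Finset (Fin n × Fin n), E₀ = univ.filter fun q =>
    ¬ Γ.Adj q.1 q.2 ∧ ∃ z, T3 H q.1 q.2 z ∧ Q q.1 q.2 z := ⟨_, rfl⟩
  have hmem : ∀ x y, (x, y) ∈ E₀ ↔ ¬ Γ.Adj x y ∧ ∃ z, T3 H x y z ∧ Q x y z := by
    intro x y
    rw [hE₀, mem_filter]
    simp
  have hch : ∀ x y : Fin n, ∃ z, (x, y) ∈ E₀ → T3 H x y z ∧ Q x y z := by
    intro x y
    by_cases hxy : (x, y) ∈ E₀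
    · obtain ⟨_, z, hz⟩ := (hmem x y).1 hxy
      exact ⟨z, fun _ => hz⟩
    · exact ⟨x, fun h => absurd h hxy⟩
  choose c hc using hch
  have hlt : (E₀.card : ℝ) ≤ ε / (N + 1) * (n : ℝ) ^ 2 := by
    by_contra hcon
    push Not at hcon
    refine hH.2 (hn H hH.1 E₀ c (fun u v huv => (hc u v huv).1) ?_ ?_ hcon.le)
    · intro u z
      refine le_trans ?_ (hQ1 u z)
      norm_cast
      refine card_le_card fun v hv => ?_
      simp only [mem_filter, mem_univ, true_and] at hv ⊢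
      rw [← hv.2]
      exact (hc u v hv.1).2
    · intro v z
      refine le_trans ?_ (hQ2 v z)
      norm_cast
      refine card_le_card fun u hu => ?_
      simp only [mem_filter, mem_univ, true_and] at hu ⊢
      rw [← hu.2]
      exact (hc u v hu.1).2
  set S := H.filter fun E => ∃ x y z, T3 H x y z ∧ E = {x, y, z} ∧ ¬ Γ.Adj x y ∧ Q x y z with hS
  have hsub : S ⊆ E₀.biUnion fun q => (univ.filter fun w => T3 H q.1 q.2 w).image
      fun w => ({q.1, q.2, w} : Finset (Fin n)) := by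
    intro E hE
    obtain ⟨_, x, y, z, h3, h4, h5, h6⟩ := mem_filter.1 hE
    refine mem_biUnion.2 ⟨(x, y), (hmem x y).2 ⟨h5, z, h3, h6⟩, ?_⟩
    exact mem_image.2 ⟨z, mem_filter.2 ⟨mem_univ _, h3⟩, h4.symm⟩
  have hcard : S.card ≤ E₀.card * N := by
    refine (card_le_card hsub).trans (card_biUnion_le_card_mul _ _ _ ?_)
    intro q hq
    refine card_image_le.trans ?_
    obtain ⟨h3, z, h4, h5⟩ := (hmem q.1 q.2).1 hq
    by_contra hcon
    push Not at hcon
    have hne : q.1 ≠ q.2 := h4.1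
    have hr : Rich N H q.1 q.2 := (hCDR _ H hH.1 N q.1 q.2 hne).2 hcon.le
    exact h3 (by
      simp only [hΓ, Γr, rg]
      exact ⟨hne, hr⟩)
  have h7 : (S.card : ℝ) ≤ E₀.card * N := by exact_mod_cast hcard
  have h8 : ε / (N + 1) * (n : ℝ) ^ 2 * N ≤ ε * (n : ℝ) ^ 2 := by
    have h9 : ε / ((N : ℝ) + 1) * N ≤ ε := by
      rw [div_mul_eq_mul_div, div_le_iff₀ (by positivity)]
      nlinarith
    nlinarith [sq_nonneg (n : ℝ)]
  nlinarith [Nat.cast_nonneg (α := ℝ) N]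

end Pool.Agent.Helper7.KT
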