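import Pool.Agent.Helper7.KT.St

/-!
# Project KT (MP_5176ab_co), module RGF: the graph of the rich pairs has no copy of `G`
-/

set_option autoImplicit false

namespace Pool.Agent.Helper7.KT

open Finset SimpleGraph Filter Topology
open EX

open scoped Classical

theorem hRGF : StRGF := by
  intro k hk U _ G V H hH
  rintro ⟨f⟩
  apply hH.2
  refine embed k hk H hH.1 G (fun u => f u) f.injective ∅ (by simp) (fun _ => ∅)
    (by simp) (by simp) (by simp) ?_
  intro u v huv _
  exact (f.toHom.map_adj huv).2

end Pool.Agent.Helper7.KT
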