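import Pool.Agent.Helper88.KT.M_KFG
import Pool.Agent.Helper98.KT.M_DCN
import Pool.Agent.Helper53.KT.M_LNK
import Pool.Agent.Helper42.KT.M_KCS
import Pool.Agent.Helper29.KT.M_PSA
import Pool.Agent.Helper38.KT.M_PSB
import Pool.Agent.Helper34.KT.M_CLQ
import Pool.Agent.Helper37.KT.M_EXK
import Pool.Agent.Helper91.KT.M_KEX
import Pool.Agent.Helper60.KT.M_KMS
import Pool.Agent.Helper57.KT.M_KME
import Pool.Agent.Helper95.KT.M_CEN
import Pool.Agent.Helper65.KT.M_KST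
import Pool.Agent.Helper73.KT.M_NBC
import Pool.Agent.Helper7.KT.M_RGF
import Pool.Agent.Helper26.KT.M_SUP
import Pool.Agent.Helper18.KT.M_HOB
import Pool.Agent.Helper45.KT.M_FAA
import Pool.Agent.Helper5.KT.M_FAB
import Pool.Agent.Helper9.KT.M_FAM
import Pool.Agent.Helper76.KT.M_STR
import Pool.Agent.Helper10.KT.M_FEW
import Pool.Agent.Helper30.KT.M_GCT
import Pool.Agent.Helper81.KT.M_MIA
import Pool.Agent.Helper11.KT.M_CDR
import Pool.Agent.Helper97.KT.M_EMT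
import Pool.Agent.Helper31.KT.M_COM
import Pool.Agent.Helper6.KT.M_RBC
import Pool.Agent.Helper31.KT.M_RBW
import Pool.Agent.Helper96.KT.M_POA
import Pool.Agent.Helper31.KT.M_HBD
import Pool.Agent.Helper64.KT.M_POC
import Pool.Agent.Helper90.KT.M_POD
import Pool.Agent.Helper44.KT.M_PNA
import Pool.Agent.Helper48.KT.M_PNB
import Pool.Agent.Helper13.KT.M_COV
import Pool.Agent.Helper54.KT.M_XUB
import Pool.Agent.Helper21.KT.M_CWT
import Pool.Agent.Helper4.KT.M_WGT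
import Pool.Agent.Helper80.KT.M_KMY
import Pool.Agent.Helper14.KT.M_MIB
import Pool.Agent.Helper24.KT.M_BET
import Pool.Agent.Helper58.KT.M_CRK
import Pool.Agent.Helper7.KT.Fin

/-!
# Project KT (MP_5176ab_co): the final theorem without hypotheses
-/

set_option autoImplicit false

namespace Pool.Agent.Helper7.KT

open Finset SimpleGraph Filter Topology
open EX

open scoped Classical

theorem pKFG : StKFG := Pool.Agent.Helper88.KT.hKFG

theorem pDCN : StDCN := Pool.Agent.Helper98.KT.hDCN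

theorem pLNK : StLNK := Pool.Agent.Helper53.KT.hLNK

theorem pKCS : StKCS := Pool.Agent.Helper42.KT.hKCS

theorem pPSA : StPSA := Pool.Agent.Helper29.KT.hPSA

theorem pPSB : StPSB := Pool.Agent.Helper38.KT.hPSB pPSA

theorem pCLQ : StCLQ := Pool.Agent.Helper34.KT.hCLQ pDCN pLNK pKCS pPSB

theorem pEXK : StEXK := Pool.Agent.Helper37.KT.hEXK pKFG pPSA pCLQ

theorem pKEX : StKEX := Pool.Agent.Helper91.KT.hKEX

theorem pKMS : StKMS := Pool.Agent.Helper60.KT.hKMS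

theorem pKME : StKME := Pool.Agent.Helper57.KT.hKME pKMS pLNK pCLQ pPSB

theorem pCEN : StCEN := Pool.Agent.Helper95.KT.hCEN pDCN

theorem pKST : StKST := Pool.Agent.Helper65.KT.hKST pCEN

theorem pNBC : StNBC := Pool.Agent.Helper73.KT.hNBC

theorem pRGF : StRGF := Pool.Agent.Helper7.KT.hRGF

theorem pSUP : StSUP := Pool.Agent.Helper26.KT.hSUP

theorem pHOB : StHOB := Pool.Agent.Helper18.KT.hHOB

theorem pFAA : StFAA := Pool.Agent.Helper45.KT.hFAA

theorem pFAB : StFAB := Pool.Agent.Helper5.KT.hFAB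

theorem pFAM : StFAM := Pool.Agent.Helper9.KT.hFAM pFAA pFAB

theorem pSTR : StSTR := Pool.Agent.Helper76.KT.hSTR pKFG pRGF pKST pHOB pFAM

theorem pFEW : StFEW := Pool.Agent.Helper10.KT.hFEW

theorem pGCT : StGCT := Pool.Agent.Helper30.KT.hGCT

theorem pMIA : StMIA := Pool.Agent.Helper81.KT.hMIA pKFG pRGF pCEN pNBC pKME pKEX pSUP pSTR pFEW pGCT

theorem pCDR : StCDR := Pool.Agent.Helper11.KT.hCDR

theorem pEMT : StEMT := Pool.Agent.Helper97.KT.hEMT

theorem pCOM : StCOM := Pool.Agent.Helper31.KT.hCOM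

theorem pRBC : StRBC := Pool.Agent.Helper6.KT.hRBC

theorem pRBW : StRBW := Pool.Agent.Helper31.KT.hRBW pRBC pEMT

theorem pPOA : StPOA := Pool.Agent.Helper96.KT.hPOA pCDR pRBW

theorem pHBD : StHBD := Pool.Agent.Helper31.KT.hHBD pRGF pEXK pCDR

theorem pPOC : StPOC := Pool.Agent.Helper64.KT.hPOC pHBD pCDR

theorem pPOD : StPOD := Pool.Agent.Helper90.KT.hPOD pCDR pPOA pPOC

theorem pPNA : StPNA := Pool.Agent.Helper44.KT.hPNA pCOM

theorem pPNB : StPNB := Pool.Agent.Helper48.KT.hPNB pPNA pEMT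

theorem pCOV : StCOV := Pool.Agent.Helper13.KT.hCOV

theorem pXUB : StXUB := Pool.Agent.Helper54.KT.hXUB pEMT

theorem pCWT : StCWT := Pool.Agent.Helper21.KT.hCWT

theorem pWGT : StWGT := Pool.Agent.Helper4.KT.hWGT pCDR pPNB pCOV

theorem pKMY : StKMY := Pool.Agent.Helper80.KT.hKMY pKFG pRGF pNBC pKME pXUB

theorem pMIB : StMIB := Pool.Agent.Helper14.KT.hMIB pKFG pRGF pCEN pKEX pPOD pCWT pWGT pKMY

theorem pBET : StBET := Pool.Agent.Helper24.KT.hBET

theorem pCRK : StCRK := Pool.Agent.Helper58.KT.hCRK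

theorem pmain {U : Type} [Fintype U]
    (r : ℕ) (hr : 3 ≤ r) (G : SimpleGraph U) (A : Finset U)
    (hA : ∀ u v, G.Adj u v → (u ∈ A ↔ v ∉ A)) (hAc : A.card ≤ r.choose 2) (hG : G ≠ ⊥)
    (hr3 : 4 ≤ r ∨ crosscutNumber (expansion r G) = 3) :
    (∀ β : ℝ, Tendsto (fun n : ℕ => (exK n r G : ℝ) / (n.choose (r - 1) : ℝ)) atTop (𝓝 β) →
      Tendsto (fun n : ℕ => (exr r n (expansion r G) : ℝ) / (n.choose (r - 1) : ℝ)) atTop
        (𝓝 (max ((crosscutNumber (expansion r G) : ℝ) - 1) β))) ∧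
    (2 ≤ crosscutNumber (expansion r G) →
      (CrosscutFormula r G ↔ ∀ ε : ℝ, 0 < ε → ∀ᶠ n : ℕ in atTop, (exK n r G : ℝ) ≤
        ((crosscutNumber (expansion r G) : ℝ) - 1 + ε) * (n.choose (r - 1) : ℝ)) ∧
      ((univ.filter fun u => u ∉ A).card ≤ r * (crosscutNumber (expansion r G) - 1) + 1 →
        CrosscutFormula r G)) :=
  main pBET pMIA pMIB pEXK r hr G A hA hAc hG hr3

theorem pkst (r t : ℕ) (hr : 3 ≤ r) (ht : r.choose 2 ≤ t) (ht' : t ≤ r * (r.choose 2 - 1) + 1) :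
    crosscutNumber (expansion r (completeBipartiteGraph (Fin (r.choose 2)) (Fin t))) =
        r.choose 2 ∧
      CrosscutFormula r (completeBipartiteGraph (Fin (r.choose 2)) (Fin t)) :=
  kst pBET pMIA pMIB pEXK pCRK r t hr ht ht'

end Pool.Agent.Helper7.KT
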