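import Pool.Agent.Helper7.KT.Defs

/-!
# Project KT (MP_5176ab_co): module statements

THEOREM.  Let `r ≥ 3`, let `G` be a bipartite graph (not empty) with a side of at most `C(r,2)` vertices, `σ` the
crosscut number of `G⁺`, and `r ≥ 4` or `σ = 3`.  Then for all large `n` there is `x ≤ n` with
`ex_r(n, G⁺) ≤ (σ-1)(C(n,r-1) - C(n-x,r-1)) + ex(n-x, K_r, G) + o(n^(r-1))`, the crosscut formula holds for `(r,G)`
iff `ex(n, K_r, G) ≤ (σ-1+o(1)) C(n,r-1)`, and it holds if the other side has at most `r(σ-1)+1` vertices.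
Special cases: `K_{3,t}`, `3 ≤ t ≤ 7`, for `r = 3`; `K_{6,t}`, `6 ≤ t ≤ 21`, for `r = 4`.

Plan.  `H`: an `r`-graph without `G⁺`, `k = r - 1`, `Γ = Γr k G H`: the graph of the rich pairs (it has no copy of `G`).
Part 1: sharp bounds for cliques in graphs without `K_{s,t}`, and for the cliques which meet the
neighbourhood of one vertex (they are few).  Part 2: general facts.  Part 3: `k ≥ 3`: almost all edges of `H`
are cliques of `Γ`, or consist of a centre of large degree in `Γ` (there are boundedly many) and of neighbours of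
the centre.  Part 4: `k = 2`.  Part 5: the end.

All definitions are in `Pool/Agent/Helper7/KT/Defs.lean`; the older library is in the namespace `EX`:
`Pool/Agent/Helper89/EX/Defs.lean` (`Rich`, `sN`, `Box`, `BoxData`, `Hom`, `own`, `Cov`, `cost`, `exK`, `exr`, `Contains`, `expansion`),
`Pool/Agent/Helper89/EX/DG.lean` (`kc K j S`: the number of `j`-cliques of `K` in `S`; `kc_succ`, `clique_eq_kc`,
`exK_le_of_kc`), `UB.lean` (`decomp`, `UB.tup`, `UB.tup_card`, `UB.rich_of_ker`, `UB.hom_own'`, `UB.own_nonempty`,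
`UB.choose_ge`, `box_data_exists`), `FB.lean` (`FB.indep`, `box_embeds`), `MA.lean` (`exr_spec`, `le_exK`, `main_upper'`),
`FN.lean` (`small_choose`, `choose_pos_eventually`, `lower_crosscut'`, `tendsto_of_bounds`, `formula_of_tendsto`,
`le_of_formula`), `Pool/Agent/Helper8/EX/EM.lean` (`embed`), `Pool/Agent/Helper57/EX/WTBT.lean` (`box_exists`),
`Pool/Agent/Helper41/EX/JS.lean` (`Hom.inter_mem`, `Hom.mem_J`, `Hom.card_le`).
For each `StX` the module proves `theorem hX : StX` from the listed statements (as hypotheses).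
-/

set_option autoImplicit false

namespace Pool.Agent.Helper7.KT

open Finset SimpleGraph Filter Topology
open EX

open scoped Classical

noncomputable section

/-! ## Part 1: graphs -/

/-- KFG (about 60 lines).  Graphs without `G` have no `K_{s,t}`.

Proof.  If `A ⊆ S`, `A.card = s`, and at least `t` vertices of `S` are adjacent to all vertices of `A` then map the side
`A₀` of `G` injectively into `A` and the other vertices injectively into the common neighbours (a common neighbour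
is not in `A`, because `Γ` has no loops, if `A` is not empty; if `s = 0` then `A₀` is empty and `G` has no edges).  This is a
copy of `G`.  Hypotheses: none. -/
def StKFG : Prop := ∀ (U : Type) [Fintype U] (G : SimpleGraph U) (s t : ℕ), Bp G s t →
  ∀ (V : Type) (Γ : SimpleGraph V), G.Free Γ → ∀ S : Finset V, KF Γ s t S

/-- DCN (about 50 lines).  Double counting.

Proof.  `(dg Γ S v).choose a` is the number of the `A ⊆ nb Γ S v` with `A.card = a` (`card_powersetCard`).  Exchange the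
sums: for every `A ⊆ S` with `a` elements the number of the `v ∈ S` with `A ⊆ nb Γ S v` is less than `t`
(`Finset.sum_card_bipartiteAbove_eq_sum_card_bipartiteBelow`).  Hypotheses: none. -/
def StDCN : Prop := ∀ (V : Type) (Γ : SimpleGraph V) (a t : ℕ) (S : Finset V), KF Γ a t S →
  ∑ v ∈ S, (dg Γ S v).choose a ≤ (t - 1) * S.card.choose a

/-- LNK (about 30 lines).  Neighbourhoods.

Proof.  `A ⊆ nb Γ S v` with `a` elements: `insert v A ⊆ S` has `a + 1` elements (`v ∉ A`), and the vertices of `nb Γ S v`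
which are adjacent to all vertices of `A` are adjacent to all vertices of `insert v A`.  Hypotheses: none. -/
def StLNK : Prop := ∀ (V : Type) (Γ : SimpleGraph V) (a t : ℕ) (S : Finset V) (v : V), v ∈ S →
  KF Γ (a + 1) t S → KF Γ a t (nb Γ S v)

/-- KCS (about 50 lines).  Cliques and cliques in neighbourhoods.

Proof.  Count the pairs `(T, v)`, `T` a clique with `j + 1` vertices in `S`, `v ∈ T`: there are `(j + 1) * kc Γ (j + 1) S`,
and `(T, v) ↦ (v, T.erase v)` is injective with `T.erase v` a clique of `nb Γ S v` (compare `EX.kc_succ`).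
Hypotheses: none. -/
def StKCS : Prop := ∀ (V : Type) (Γ : SimpleGraph V) (j : ℕ) (S : Finset V),
  (j + 1) * kc Γ (j + 1) S ≤ ∑ v ∈ S, kc Γ j (nb Γ S v)

/-- PSA (about 40 lines).  Powers and binomial coefficients.

Proof.  `b! C(d,b) / d^b → 1` (`isEquivalent_choose`), so `d^b ≤ (1 + ε) b! C(d,b)` for `d ≥ d₀`; let `C = d₀^b`.
Hypotheses: none. -/
def StPSA : Prop := ∀ (b : ℕ) (ε : ℝ), 0 < ε → ∃ C : ℝ, 0 ≤ C ∧ ∀ d : ℕ,
  (d : ℝ) ^ b ≤ (1 + ε) * ((b.factorial : ℝ) * (d.choose b : ℝ)) + C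

/-- PSB (about 120 lines).  Power sums.

Proof.  Let `p = b / e ≥ 1`, `Σ = ∑ v ∈ S, d v ^ b`.  By hPSA and `b! C(n,b) ≤ n^b`:
`Σ ≤ (1 + ε₁) T n^b + C₁ n ≤ ((1 + ε₁) T + ε₂) n^b + C₂` (`b ≥ 2`, so `C₁ n ≤ ε₂ n^b + C₂`).  By
`Real.rpow_sum_le_const_mul_sum_rpow` (exponent `p`, terms `d v ^ e`): `∑ d v ^ e ≤ n^(1 - e/b) Σ^(e/b)`.  By
`Real.rpow_add_le_add_rpow` (`(x + y)^q ≤ x^q + y^q` for `0 ≤ q ≤ 1`):
`∑ d v ^ e ≤ ((1 + ε₁) T + ε₂)^(e/b) n^(1 + e - e/b) + C₂^(e/b) n^(1 - e/b)`.  Since `e > 0`, the last term is at most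
`ε₃ n^(1 + e - e/b) + C₃`; and `((1 + ε₁) T + ε₂)^(e/b) → T^(e/b)` for `ε₁, ε₂ → 0` (continuity of `x ↦ x^(e/b)`, `e/b > 0`).
Hypotheses: hPSA. -/
def StPSB : Prop := ∀ (b : ℕ) (e T : ℝ), 2 ≤ b → 1 ≤ e → e ≤ b → 0 ≤ T → ∀ ε : ℝ, 0 < ε →
  ∃ C : ℝ, 0 ≤ C ∧ ∀ (V : Type) (S : Finset V) (d : V → ℕ) (n : ℕ), S.card ≤ n →
    ((∑ v ∈ S, (d v).choose b : ℕ) : ℝ) ≤ T * (n.choose b : ℝ) →
    ∑ v ∈ S, (d v : ℝ) ^ e ≤ (T ^ (e / b) + ε) * (n : ℝ) ^ (1 + e - e / b) + C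

/-- CLQ (about 150 lines).  The number of cliques in graphs without `K_{a,t}`.

Proof.  Induction on `j` for all `a` and `ε`; `T = t - 1`.  `j = 1`: `kc Γ 1 S ≤ S.card` (`EX.kc_one_le`), `(1).choose 2 = 0`.
Step from `(j, a)` to `(j + 1, a + 1)`, `1 ≤ j ≤ a`: let `b = a + 1 ≥ 2`, `θ = C(j,2)/a`, `e = j - θ`, `c = T^θ / j!`; then
`1 ≤ e ≤ b`.  hKCS, hLNK, the induction hypothesis for `ε₁`, hDCN and hPSB (with `n = S.card`, `d = dg Γ S`):
`(j + 1) kc (j + 1) S ≤ ∑ ((c + ε₁) d^e + C₁) ≤ (c + ε₁) ((T^(e/b) + ε₂) n^E + C₂) + C₁ n`, `E = 1 + e - e/b > 1`, so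
`C₁ n ≤ ε₃ n^E + C₃`.  Choose `ε₁, ε₂, ε₃` small (continuity).  Finally `E = (j + 1) - C(j+1,2)/(a+1)` and
`θ + e/b = C(j+1,2)/(a+1)`, `T^θ T^(e/b) = T^(θ + e/b)` (`Real.rpow_add_of_nonneg`), `(j + 1)! = (j + 1) j!`; use
`Nat.choose_succ_succ`: `C(j+1,2) = j + C(j,2)`.  Hypotheses: hDCN hLNK hKCS hPSB. -/
def StCLQ : Prop := ∀ t : ℕ, 1 ≤ t → ∀ j : ℕ, 1 ≤ j → ∀ a : ℕ, j ≤ a → ∀ ε : ℝ, 0 < ε →
  ∃ C : ℝ, 0 ≤ C ∧ ∀ (V : Type) (Γ : SimpleGraph V) (S : Finset V), KF Γ a t S →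
    (kc Γ j S : ℝ) ≤ (((t - 1 : ℕ) : ℝ) ^ ((j.choose 2 : ℝ) / a) / j.factorial + ε) *
      (S.card : ℝ) ^ ((j : ℝ) - (j.choose 2 : ℝ) / a) + C

/-- EXK (about 80 lines).  The generalized Turan number.

Proof.  `s = C(r,2) ≥ r`.  hKFG, hCLQ with `j = r`, `a = s` (exponents `1` and `r - 1`): `kc K r univ ≤
((t - 1)/r! + ε₁) n^(r-1) + C` for every `G`-free graph `K` on `Fin n`, so for `exK n r G` (`EX.exK_le_of_kc`).  Eventually
`n^(r-1) ≤ (1 + ε₂) (r-1)! C(n,r-1)` (hPSA, or `isEquivalent_choose`) and `C ≤ ε₃ C(n,r-1)`; `r! = r (r-1)!`.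
Hypotheses: hKFG hPSA hCLQ. -/
def StEXK : Prop := ∀ r t : ℕ, 3 ≤ r → 1 ≤ t → ∀ (U : Type) [Fintype U] (G : SimpleGraph U),
  Bp G (r.choose 2) t → ∀ ε : ℝ, 0 < ε → ∀ᶠ n : ℕ in atTop,
    (exK n r G : ℝ) ≤ (((t : ℝ) - 1) / r + ε) * (n.choose (r - 1) : ℝ)

/-- KEX (about 40 lines).  Cliques in a subset.

Proof.  Let `m = S.card`, `S ≃ Fin m`: the graph on `Fin m` with the edges of `Γ` between the vertices of `S` has no copy of
`G` and `kc Γ r S` cliques with `r` vertices; `EX.le_exK` (compare `EX.sum_deg_le`).  Hypotheses: none. -/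
def StKEX : Prop := ∀ (U : Type) (G : SimpleGraph U) (V : Type) (Γ : SimpleGraph V), G.Free Γ →
  ∀ (r : ℕ) (S : Finset V), kc Γ r S ≤ exK S.card r G

/-- KMS (about 30 lines).  Cliques which meet a set.

Proof.  `T` with a vertex `v ∈ N`: `(v, T.erase v)` determines `T`.  Hypotheses: none. -/
def StKMS : Prop := ∀ (V : Type) [Fintype V] (Γ : SimpleGraph V) (j : ℕ) (N : Finset V),
  km Γ (j + 1) N ≤ ∑ v ∈ N, kc Γ j (nb Γ univ v)

/-- KME (about 120 lines).  Few cliques meet a thin set.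

Proof.  Let `s = C(r,2)`, `b = s - 1 ≥ 2`, `e = (r-1) - C(r-1,2)/b`, so `1 ≤ e ≤ b`, `r - 1 ≤ b`.  hKMS (`j = r - 1`), hLNK
(`KF Γ b t (nb Γ univ v)`) and hCLQ for `(r - 1, b)`: `km Γ r N ≤ ∑ v ∈ N, (c d(v)^e + C)`, `d(v) = dg Γ univ v`.
`d^e ≤ 2^e ((d - 1)^e + 1)` (`d - 1` in natural numbers), and hPSB for the numbers `d(v) - 1` with `T = D`:
`∑ v ∈ N, (d(v) - 1)^e ≤ C' n^(1 + e - e/b) + C''`.  So `km Γ r N ≤ C₃ n^(1 + e - e/b) + C₄ n + C₅`, and
`1 + e - e/b < r - 1`: `b = (r-2)(r+1)/2`, `e = (r-1) r/(r+1)`, the claim is `q (q - 4) < (q - 2)^2` for `q = r^2 - r`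
(`(1 - 1/b) e < r - 2`); and `1 < r - 1`.  Hypotheses: hKMS hLNK hCLQ hPSB. -/
def StKME : Prop := ∀ r t D : ℕ, 3 ≤ r → 1 ≤ t → ∀ ε : ℝ, 0 < ε → ∀ᶠ n : ℕ in atTop,
  ∀ (Γ : SimpleGraph (Fin n)), KF Γ (r.choose 2) t univ → ∀ N : Finset (Fin n),
    ∑ v ∈ N, (dg Γ univ v - 1).choose (r.choose 2 - 1) ≤ D * n.choose (r.choose 2 - 1) →
    (km Γ r N : ℝ) ≤ ε * (n : ℝ) ^ (r - 1)

/-- CEN (about 60 lines).  Few vertices of large degree.

Proof.  Let `M₁` be the number of these vertices: hDCN gives `M₁ C(d, s) ≤ (t - 1) C(n,s)` for `d = ⌈δ n⌉`; for large `n`,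
`C(d, s) ≥ d^s/(2^s s!) ≥ (δ n)^s/(2^s s!)` (`EX.UB.choose_ge`) and `C(n,s) ≤ n^s/s!` (`Nat.choose_le_pow_div`), so
`M₁ ≤ (t - 1) (2/δ)^s`.  Hypotheses: hDCN. -/
def StCEN : Prop := ∀ s t : ℕ, 1 ≤ s → ∀ δ : ℝ, 0 < δ → ∃ M : ℕ, ∀ᶠ n : ℕ in atTop,
  ∀ Γ : SimpleGraph (Fin n), KF Γ s t univ → (Ct Γ δ).card ≤ M

/-- KST (about 30 lines).  Graphs without `K_{s,t}` have few edges.

Proof.  hCEN with `δ = ε/2`: the vertices of `Ct Γ δ` have together degree at most `M n ≤ (ε/2) n²`, the others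
at most `(ε/2) n` each.  Hypotheses: hCEN. -/
def StKST : Prop := ∀ s t : ℕ, 1 ≤ s → ∀ ε : ℝ, 0 < ε → ∀ᶠ n : ℕ in atTop,
  ∀ Γ : SimpleGraph (Fin n), KF Γ s t univ →
    ((∑ v, dg Γ univ v : ℕ) : ℝ) ≤ ε * (n : ℝ) ^ 2

/-- NBC (about 60 lines).  The neighbourhood of a vertex is thin.

Proof.  For `v ∈ nb Γ univ c` the set `(nb Γ univ v).erase c` has `dg Γ univ v - 1` elements.  Count the pairs `(v, A)`,
`A ⊆ (nb Γ univ v).erase c`, `A.card = s - 1`, as in DCN: for given `A` (`c ∉ A`) the vertices `v` are adjacent to all vertices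
of `insert c A`, which has `s` elements, so there are at most `t - 1`.  Hypotheses: none. -/
def StNBC : Prop := ∀ (V : Type) [Fintype V] (Γ : SimpleGraph V) (s t : ℕ) (c : V), 1 ≤ s →
  KF Γ s t univ → ∑ v ∈ nb Γ univ c, (dg Γ univ v - 1).choose (s - 1) ≤
    (t - 1) * (Fintype.card V).choose (s - 1)

/-! ## Part 2: general facts -/

/-- RGF (about 20 lines).  The graph of the rich pairs has no copy of `G`.

Proof.  As in the proof of `EX.main_upper'` (`hKfree`), by `EX.embed`.  Hypotheses: none. -/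
def StRGF : Prop := ∀ k : ℕ, 1 ≤ k → ∀ (U : Type) [Fintype U] (G : SimpleGraph U) (V : Type)
  (H : Finset (Finset V)), Fr k G H → G.Free (Γr k G H)

/-- SUP (about 20 lines).  Binomial coefficients are superadditive.

Proof.  The `k`-subsets of `X` and of its complement (`X.card = x` in `n` points) are different `k`-subsets, `k ≥ 1`;
or `Nat.add_choose_eq`.  Hypotheses: none. -/
def StSUP : Prop := ∀ n x k : ℕ, x ≤ n → 1 ≤ k → x.choose k + (n - x).choose k ≤ n.choose k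

/-! ## Part 3: `k ≥ 3` -/

/-- HOB (about 50 lines).  The number of the edges with poor pairs.

Proof.  As `EX.main_upper'`: `I = ∅`, `ψ u = 0` for `u` in the side `A`, `ψ u = 1` otherwise, the colour `2` is empty,
`cost G ∅ ≥ 1` (`EX.one_le_cost`); `EX.box_data_exists` with `σ = cost G ∅ - 1`, `ε = 1` and `EX.box_embeds`: the number is less
than `cost G ∅ * C(n,k) ≤ cost G ∅ * n^k`.  Hypotheses: none. -/
def StHOB : Prop := ∀ k : ℕ, 3 ≤ k → ∀ (U : Type) [Fintype U] (G : SimpleGraph U) (s t : ℕ),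
  Bp G s t → G ≠ ⊥ → ∃ C₀ : ℝ, 0 ≤ C₀ ∧ ∀ᶠ n : ℕ in atTop, ∀ H : Finset (Finset (Fin n)),
    Fr k G H → ((H.filter fun E => ¬ Cq (Γr k G H) E).card : ℝ) ≤ C₀ * (n : ℝ) ^ k

/-- FAA (about 50 lines).  Tuples with an edge at two places.

Proof.  `e ↦ ((e l, e l'), (e i)_{i ≠ b, l, l'})` is injective on `F`; the first component is an ordered edge of `Γ` (there
are `∑ v, dg Γ univ v`), the second a function on `k - 2` places.  Hypotheses: none. -/
def StFAA : Prop := ∀ (n k : ℕ) (Γ : SimpleGraph (Fin n)) (F : Finset (Fin (k + 1) → Fin n))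
  (b l l' : Fin (k + 1)), l ≠ b → l' ≠ b → l ≠ l' →
  (∀ e ∈ F, ∀ e' ∈ F, (∀ i, i ≠ b → e i = e' i) → e = e') →
  (∀ e ∈ F, Γ.Adj (e l) (e l')) → F.card ≤ (∑ v, dg Γ univ v) * n ^ (k - 2)

/-- FAB (about 80 lines).  Tuples with a centre of small degree.

Proof.  For `y, y'` all `e ∈ F` with `e l = y`, `e l' = y'` have the same `c = e b`, and `e ↦ (e i)_{i ≠ b, l, l'}` is injective on
them with values in `nb Γ univ c`: there are at most `(dg Γ univ c)^(k-2) ≤ (δ n)^(k-2)`.  Sum over the `n²` pairs.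
Hypotheses: none. -/
def StFAB : Prop := ∀ (n k : ℕ) (Γ : SimpleGraph (Fin n)) (F : Finset (Fin (k + 1) → Fin n))
  (b l l' : Fin (k + 1)) (δ : ℝ), 0 ≤ δ → l ≠ b → l' ≠ b → l ≠ l' →
  (∀ e ∈ F, ∀ e' ∈ F, (∀ i, i ≠ b → e i = e' i) → e = e') →
  (∀ e ∈ F, ∀ e' ∈ F, e l = e' l → e l' = e' l' → e b = e' b) →
  (∀ e ∈ F, ∀ i, i ≠ b → Γ.Adj (e b) (e i)) → (∀ e ∈ F, (dg Γ univ (e b) : ℝ) ≤ δ * n) →
  (F.card : ℝ) ≤ (n : ℝ) ^ 2 * (δ * n) ^ (k - 2)

/-- FAM (about 120 lines).  One homogeneous family.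

Proof.  `Γ = rg N H`; we may assume `F ≠ ∅`.  Let `b ∈ own J`; `EX.UB.hom_own`: the other places determine `e ∈ F`.
(i) `own J` has another element `b'`: choose two places `l ≠ l'` different from `b` and `b'` (`k + 1 ≥ 4`).  `own J \ {l, l'}`
contains `b` and `b'`, so `{l, l'} ∈ J` (`Hom.mem_J`), all pairs `e l, e l'` are rich (`Hom.ker`, `EX.UB.rich_of_ker`) and different
(`StrictMono`), and hFAA gives the bound for all of `F`.
(ii) `own J = {b}`: let `l ≠ l'` be different from `b`.  All pairs `e b, e i` (`i ≠ b`) are rich: `own J \ {b, i} = ∅`,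
`{b, i} ∈ J`.  If `{l, l'} ∈ J`: as in (i).  Otherwise `e l` and `e l'` determine `e b` for `e ∈ F`: if `e ≠ e'` agree at `l`, `l'` but
not at `b` then `agr e e' ∈ J`, `Z = {b, l, l'} ∈ J` (`own J \ Z = ∅`, `Z ≠ univ` because `k + 1 ≥ 4`) and
`agr e e' ∩ Z = {l, l'} ∈ J` (`Hom.inter_mem`), a contradiction (see `EX.UB.data` for all these arguments).  The tuples of
the filter have `dg Γ univ (e b) < δ n`: hFAB.  Hypotheses: hFAA hFAB. -/
def StFAM : Prop := ∀ (n k N : ℕ), 3 ≤ k → 2 * (k + 1) < N → ∀ (H : Finset (Finset (Fin n)))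
  (F : Finset (Fin (k + 1) → Fin n)) (P : Fin n → Fin (k + 1)) (J : Finset (Finset (Fin (k + 1)))),
  (∀ e ∈ F, StrictMono e ∧ univ.image e ∈ H) → Hom N F J → (∀ e ∈ F, ∀ i, P (e i) = i) → Cov J →
  (own J).Nonempty → ∀ δ : ℝ, 0 ≤ δ →
  ((F.filter fun e => ¬ ∃ b, δ * n ≤ dg (rg N H) univ (e b) ∧
    ∀ i, i ≠ b → (rg N H).Adj (e b) (e i)).card : ℝ) ≤
    ((∑ v, dg (rg N H) univ v : ℕ) : ℝ) * (n : ℝ) ^ (k - 2) + (n : ℝ) ^ 2 * (δ * n) ^ (k - 2)

/-- STR (about 150 lines).  The structure of the edges with poor pairs.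

Proof.  Let `N = sN k G` (`2 (k + 1) < N`), `Γ = Γr k G H`, `H₁ = {E ∈ H | ¬ Cq Γ E}`, `C₀` from hHOB, `δ₀ = ε/(4 (C₀ + 1))`, `m` from
`EX.decomp (k + 1) N δ₀`, `δ ≤ 1` with `m δ ≤ ε/8`.  `F = UB.tup k H₁` (`UB.tup_card`), `F' j`, `P j`, `J j` from `decomp`.  The edges
of the filter give tuples `e ∈ F` (increasing) for which no `b` has `δ n ≤ dg Γ univ (e b)` and `Γ.Adj (e b) (e i)` for
all `i ≠ b`.  At most `δ₀ |F| ≤ (ε/4) n^k` are in no `F' j`.  For each `j`: if `J j` is not `Cov`: `|F' j| ≤ n^(k-1)`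
(`Hom.card_le`); if `Cov` and `F' j ≠ ∅`: `own (J j)` is not empty (`UB.own_nonempty`) and hFAM:
at most `(∑ dg) n^(k-2) + δ^(k-2) n^k`, with `∑ dg ≤ ε₁ n²`, `m ε₁ ≤ ε/8` (hKST with hKFG, hRGF) and `δ^(k-2) ≤ δ`.  Sum:
`(ε/4 + ε/8 + ε/8) n^k + m n^(k-1) ≤ ε n^k` for large `n`.  See `EX.box_data_exists` for the same set-up.
Hypotheses: hKFG hRGF hKST hHOB hFAM. -/
def StSTR : Prop := ∀ k : ℕ, 3 ≤ k → ∀ (U : Type) [Fintype U] (G : SimpleGraph U) (s t : ℕ),
  Bp G s t → 1 ≤ s → G ≠ ⊥ → ∀ ε : ℝ, 0 < ε → ∃ δ : ℝ, 0 < δ ∧ ∀ᶠ n : ℕ in atTop,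
    ∀ H : Finset (Finset (Fin n)), Fr k G H →
      ((H.filter fun E => ¬ Cq (Γr k G H) E ∧ ¬ Ce (Γr k G H) (Ct (Γr k G H) δ) E).card : ℝ) ≤
        ε * (n : ℝ) ^ k

/-- FEW (about 150 lines).  Few sets have `σ` centres.

Proof.  Let `σ = crosscutNumber`, `I` with `cost G I = σ` (`EX.exists_opt`), `1 ≤ σ` (`EX.one_le_cost`), `ψ u = 0` for `u` in the side
`A`, `1` otherwise, `c₀ = 2`; `T` from `EX.box_embeds` with `m = σ`.  Suppose that there are more than `ε n^k` sets `x`.  Their increasing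
enumerations are injective tuples; pigeonhole over the subsets of `C`: some `A' ⊆ C` with `A'.card = σ` is
contained in `An Γ H C x` for at least `(ε/2^M) n^k` of them.  `EX.box_exists` with `max T 1`: a box `Y` all of whose points
are such tuples.  `EX.BoxData` with `ι = Fin σ ≃ A'`, `c j x = γ j` (constant), `W = A'`, `Λ j = ∅`: the sides are disjoint (a
point `v ∈ Y l ∩ Y l'` would give a box point which is not injective), `γ j ∉ x`, `insert (γ j) x ∈ H`, `dep` by the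
second alternative, `rich` by `Γ.Adj`.  `∑ 1/(0+1) = σ > σ - 1`: `EX.box_embeds` gives a copy, a contradiction.
(`EX.ic_insert_image` if the instances differ.)  Hypotheses: none. -/
def StFEW : Prop := ∀ k : ℕ, 3 ≤ k → ∀ (U : Type) [Fintype U] (G : SimpleGraph U) (s t : ℕ),
  Bp G s t → G ≠ ⊥ → ∀ M : ℕ, ∀ ε : ℝ, 0 < ε → ∀ᶠ n : ℕ in atTop,
    ∀ H : Finset (Finset (Fin n)), Fr k G H → ∀ C : Finset (Fin n), C.card ≤ M →
      (((powersetCard k univ).filter fun x : Finset (Fin n) =>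
        crosscutNumber (expansion (k + 1) G) ≤ (An (Γr k G H) H C x).card).card : ℝ) ≤
        ε * (n : ℝ) ^ k

/-- GCT (about 40 lines).  Edges with a centre.

Proof.  `E` with the centre `c`: `(E.erase c, c)` determines `E`, `E.erase c` has `k` elements, all adjacent to `c`, and
`c ∈ An Γ H C (E.erase c)`.  Hypotheses: none. -/
def StGCT : Prop := ∀ (V : Type) [Fintype V] (Γ : SimpleGraph V) (k : ℕ) (H : Finset (Finset V))
  (C : Finset V), (∀ E ∈ H, E.card = k + 1) → (H.filter fun E => Ce Γ C E).card ≤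
    ∑ x ∈ powersetCard k (univ.filter fun v => ∃ c ∈ C, Γ.Adj c v), (An Γ H C x).card

/-- MIA (about 150 lines).  The main inequality for `r ≥ 4`.

Proof.  `k = r - 1`, `s = C(r,2)`, `t ≥ 1` because `G ≠ ⊥`; `σ ≥ 1`.  `δ` from hSTR for `ε/4`, `M` from hCEN (hKFG, hRGF).
If `exr = 0` take `x = 0`.  Otherwise `H` from `EX.exr_spec`, `Γ = Γr k G H`, `C = Ct Γ δ`,
`X = {v | ∃ c ∈ C, Γ.Adj c v}`, `x = X.card`.  The edges: (1) `¬ Cq`, `¬ Ce`: at most `(ε/4) n^k`.  (2) `Ce`: hGCT, hFEW (with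
`ε₂ = ε/(4 M + 4)`, and `(An ..).card ≤ M`): at most `(σ-1) C(x,k) + M ε₂ n^k`, and
`C(x,k) ≤ C(n,k) - C(n-x,k)` (hSUP).  (3) `Cq`: cliques of `Γ` with `r` vertices; those in the complement of `X`: at most
`exK (n-x) r G` (hKEX, hRGF); those which meet `X`: at most `∑ c ∈ C, km Γ r (nb Γ univ c) ≤ M ε₃ n^k`, `ε₃ = ε/(4 M + 4)`, by hKME
with `D = t - 1` and hNBC.  Hypotheses: hKFG hRGF hCEN hNBC hKME hKEX hSUP hSTR hFEW hGCT. -/
def StMIA : Prop := ∀ r : ℕ, 4 ≤ r → ∀ (U : Type) [Fintype U] (G : SimpleGraph U) (t : ℕ),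
  Bp G (r.choose 2) t → G ≠ ⊥ → MI r (crosscutNumber (expansion r G)) G

/-! ## Part 4: `k = 2` -/

/-- CDR (about 40 lines).  Rich pairs of 3-graphs.

Proof.  `w ↦ {u, v, w}` is a bijection of `{w | T3 H u v w}` onto the edges which contain `u` and `v`, and two different
such edges meet exactly in `{u, v}`.  (→) The edges of the sunflower contain `u` and `v`.  (←) Take all these edges.
Hypotheses: none. -/
def StCDR : Prop := ∀ (V : Type) [Fintype V] (H : Finset (Finset V)), (∀ E ∈ H, E.card = 3) →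
  ∀ (N : ℕ) (u v : V), u ≠ v → (Rich N H u v ↔ N ≤ cd H u v)

/-- EMT (about 100 lines).  Embedding in a 3-graph.

Proof.  Let `A` be the side of `G`; injections `i : A → Fin s` and `j : Aᶜ → Fin t` (from the cardinalities), `φ u = a (i u)` or
`v (j u)`: injective.  `EX.embed` with `k = 2`, the set of the edges `s(u, u')` of `G`, `u ∈ A`, `u' ∉ A`, with `Q (i u) (j u')`, and
`D = {φ u, φ u', χ (i u) (j u')}` (define `D` on `Sym2 U` by the image of the edge under `φ` together with the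
value of `χ`, or by choice).  Hypotheses: none. -/
def StEMT : Prop := ∀ (U : Type) [Fintype U] (G : SimpleGraph U) (s t : ℕ), Bp G s t →
  ∀ (V : Type) (H : Finset (Finset V)), (∀ E ∈ H, E.card = 3) →
  ∀ (a : Fin s → V) (v : Fin t → V), Function.Injective a → Function.Injective v →
  (∀ i j, a i ≠ v j) → ∀ (Q : Fin s → Fin t → Prop) (χ : Fin s → Fin t → V),
  (∀ i j, Q i j → T3 H (a i) (v j) (χ i j)) →
  (∀ i j i' j', Q i j → Q i' j' → χ i j = χ i' j' → i = i' ∧ j = j') →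
  (∀ i j i', Q i j → χ i j ≠ a i') → (∀ i j j', Q i j → χ i j ≠ v j') →
  (∀ i j, ¬ Q i j → (Γr 2 G H).Adj (a i) (v j)) → Contains H (expansion 3 G)

/-- COM (about 80 lines).  Common neighbours.

Proof.  `m = Fintype.card ι`.  The number of the pairs `(u, v)`, `u : ι → Fin n`, `(u i, v) ∈ E` for all `i`, is
`∑ v, d(v)^m ≥ n (|E|/n)^m ≥ η^m n^(m+1)` (`inner_le_nnorm_mul_nnorm` is not needed: `Real.pow_arith_mean_le_arith_mean_pow`
or `inner_mul_le_norm_mul_norm`; `Finset.card_pi`/`Fintype.card_pi` for the number of functions into a set).  At most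
`m² n^(m-1)` functions `u` are not injective; they give at most `m² n^m ≤ (η^m/2) n^(m+1)` pairs for large `n`.  So some
injective `u` has at least `(η^m/2) n` vertices `v`.  Hypotheses: none. -/
def StCOM : Prop := ∀ (ι : Type) [Fintype ι] (η : ℝ), 0 < η → ∀ᶠ n : ℕ in atTop,
  ∀ E : Finset (Fin n × Fin n), η * (n : ℝ) ^ 2 ≤ E.card →
    ∃ u : ι → Fin n, Function.Injective u ∧
      η ^ (Fintype.card ι) / 2 * n ≤ ((univ.filter fun v => ∀ i, (u i, v) ∈ E).card : ℝ)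

/-- RBC (about 150 lines).  Rainbow stars.

Proof.  Let `δ = η^s/(4 (s² + 1))`.  The number of the pairs `(u, v)`, `v : Fin s → Fin n`, `(u, v i) ∈ E` for all `i`, is
`∑ u, d(u)^s ≥ η^s n^(s+1)` (as in COM).  Bad pairs: `v` not injective: at most `s² n^s`; `c u (v i) = c u (v j)` for some
`i ≠ j`: for given `u` and all values `v i'` with `i' ≠ j` there are at most `δ n` choices of `v j`: at most `s² δ n^(s+1)`;
`c u (v i) = v j`, `i ≠ j`: `v j` is determined by `u` and `v i`: at most `s² n^s` (`i = j` is excluded by the hypothesis).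
So at least `(η^s - s² δ) n^(s+1) - 2 s² n^s ≥ (η^s/4) n^(s+1)` pairs are good, and some injective `v` has at least
`(η^s/4) n` good `u`.  Hypotheses: none. -/
def StRBC : Prop := ∀ (s : ℕ) (η : ℝ), 0 < η → ∃ δ : ℝ, 0 < δ ∧ ∀ δ' : ℝ, 0 < δ' → δ' ≤ δ →
  ∀ᶠ n : ℕ in atTop, ∀ (E : Finset (Fin n × Fin n)) (c : Fin n → Fin n → Fin n),
    (∀ u v, (u, v) ∈ E → c u v ≠ v) →
    (∀ u z, ((univ.filter fun v => (u, v) ∈ E ∧ c u v = z).card : ℝ) ≤ δ' * n) →
    η * (n : ℝ) ^ 2 ≤ E.card → ∃ v : Fin s → Fin n, Function.Injective v ∧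
      η ^ s / 4 * n ≤ ((univ.filter fun u => (∀ i, (u, v i) ∈ E) ∧
        (∀ i j, i ≠ j → c u (v i) ≠ c u (v j)) ∧ ∀ i j, c u (v i) ≠ v j).card : ℝ)

/-- RBW (about 150 lines).  The rainbow lemma.

Proof.  `δ` small: at most the `δ` of hRBC and `δ (s² + s) (t + 1) ≤ η^s/16`.  hRBC (`c u v ≠ v` by `T3`): `v`, and the set `Z`
of at least `(η^s/4) n` good `u`; remove the `u` in the range of `v` (at most `s`).  Conflict of `u ≠ u'` in `Z`:
`c u (v i) = c u' (v j)`, or `c u (v i) = u'`, or `c u' (v i) = u` for some `i`, `j`: symmetric, and for given `u` at most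
`s² δ n + s + s δ n` vertices `u'`.  `EX.FB.indep`: `t` vertices `u 1, .., u t` of `Z` without conflicts.  hEMT with `a = v`,
`v = u`, `Q` always true, `χ i j = c (u j) (v i)` (`t3_swap`; `T3` is invariant under permutations).
Hypotheses: hRBC hEMT. -/
def StRBW : Prop := ∀ (U : Type) [Fintype U] (G : SimpleGraph U) (s t : ℕ), Bp G s t →
  ∀ η : ℝ, 0 < η → ∃ δ : ℝ, 0 < δ ∧ ∀ δ' : ℝ, 0 < δ' → δ' ≤ δ → ∀ᶠ n : ℕ in atTop,
    ∀ H : Finset (Finset (Fin n)), (∀ E ∈ H, E.card = 3) →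
    ∀ (E : Finset (Fin n × Fin n)) (c : Fin n → Fin n → Fin n),
      (∀ u v, (u, v) ∈ E → T3 H u v (c u v)) →
      (∀ u z, ((univ.filter fun v => (u, v) ∈ E ∧ c u v = z).card : ℝ) ≤ δ' * n) →
      (∀ v z, ((univ.filter fun u => (u, v) ∈ E ∧ c u v = z).card : ℝ) ≤ δ' * n) →
      η * (n : ℝ) ^ 2 ≤ E.card → Contains H (expansion 3 G)

/-- POA (about 80 lines).  Few edges with a sparse relation.

Proof.  `N = sN 2 G ≥ 1`, `η = ε/(N + 1)`, `δ` from hRBW.  `E₀ = {(x, y) | ¬ Γ.Adj x y ∧ ∃ z, T3 H x y z ∧ Q x y z}`, `c x y` such a `z`.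
By hRBW (and `Fr`), `|E₀| < η n²`.  Each edge of the filter gives a pair of `E₀`, and each pair `(x, y)` of `E₀` is in
`cd H x y < N` edges (hCDR, because the pair is not rich).  Hypotheses: hCDR hRBW. -/
def StPOA : Prop := ∀ (U : Type) [Fintype U] (G : SimpleGraph U) (s t : ℕ), Bp G s t →
  ∀ ε : ℝ, 0 < ε → ∃ δ : ℝ, 0 < δ ∧ ∀ δ' : ℝ, 0 < δ' → δ' ≤ δ → ∀ᶠ n : ℕ in atTop,
    ∀ H : Finset (Finset (Fin n)), Fr 2 G H → ∀ Q : Fin n → Fin n → Fin n → Prop,
      (∀ x z, ((univ.filter fun y => Q x y z).card : ℝ) ≤ δ' * n) →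
      (∀ y z, ((univ.filter fun x => Q x y z).card : ℝ) ≤ δ' * n) →
      ((H.filter fun E => ∃ x y z, T3 H x y z ∧ E = {x, y, z} ∧ ¬ (Γr 2 G H).Adj x y ∧
        Q x y z).card : ℝ) ≤ ε * (n : ℝ) ^ 2

/-- HBD (about 60 lines).  The number of the edges.

Proof.  The edges which are cliques of `Γ = Γr 2 G H`: at most `exK n 3 G` (`EX.le_exK`, hRGF), so at most
`((t-1)/3 + 1) C(n,2)` for large `n` (hEXK with `r = 3`, `(3).choose 2 = 3`).  The other edges contain a poor pair, and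
every poor pair is in fewer than `N = sN 2 G` edges (hCDR): at most `N n²`.  Hypotheses: hRGF hEXK hCDR. -/
def StHBD : Prop := ∀ (U : Type) [Fintype U] (G : SimpleGraph U) (t : ℕ), Bp G 3 t → 1 ≤ t →
  ∃ C₀ : ℝ, 0 ≤ C₀ ∧ ∀ᶠ n : ℕ in atTop, ∀ H : Finset (Finset (Fin n)), Fr 2 G H →
    (H.card : ℝ) ≤ C₀ * (n : ℝ) ^ 2

/-- POC (about 80 lines).  Few edges at vertices in many heavy pairs.

Proof.  `L = {x | D < hd δ H x}`.  `δ n |L| D ≤ ∑ x, ∑ g, cd H x g ≤ 6 |H| ≤ 6 C₀ n²` (hHBD; the triples `(x, g, w)` with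
`T3 H x g w` are at most `6 |H|`), so `|L| ≤ 6 C₀ n/(δ D)`.  Each edge of the filter contains a poor pair `x, y` with
`x ∈ L`: at most `|L| n N` edges, `N = sN 2 G` (hCDR).  `D ≥ 6 C₀ N/(δ ε) + 1`.  Hypotheses: hHBD hCDR. -/
def StPOC : Prop := ∀ (U : Type) [Fintype U] (G : SimpleGraph U) (t : ℕ), Bp G 3 t → 1 ≤ t →
  ∀ δ : ℝ, 0 < δ → ∀ ε : ℝ, 0 < ε → ∃ D : ℕ, ∀ᶠ n : ℕ in atTop,
    ∀ H : Finset (Finset (Fin n)), Fr 2 G H →
      ((H.filter fun E => ∃ x y z, T3 H x y z ∧ E = {x, y, z} ∧ ¬ (Γr 2 G H).Adj x y ∧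
        D < hd δ H x).card : ℝ) ≤ ε * (n : ℝ) ^ 2

/-- POD (about 120 lines).  The structure of the edges with poor pairs.

Proof.  `δ` from hPOA for `ε/3`, `D` from hPOC for `δ` and `ε/3`; `n` so large that `sN 2 G ≤ δ n`: then heavy pairs are
rich (hCDR).  hPOA with `δ' = δ` for `Q₁ x y z`: `T3 H x y z`, `¬ hv δ H x z`, `¬ hv δ H y z` (`{y | T3 H x y z}` has
`cd H x z < δ n` elements, `t3_rot`), and for `Q₂ x y z`: `Γ.Adj z x`, `Γ.Adj z y`, `dg Γ univ z < δ n`.  Let `E ∈ H`, `¬ Cq Γ E`: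
`E = {x, y, z}`, `T3 H x y z`, `¬ Γ.Adj x y`.  (a) `Γ.Adj z x` and `Γ.Adj z y`: if `z ∈ Ct Γ δ` then `tA`; otherwise `E` is in the
set of `Q₂`.  (b) Otherwise, say (exchange `x` and `y`) `¬ Γ.Adj z y`.  If `x z` is not heavy: `E` is in the set of `Q₁`
(`y z` is not rich, so not heavy).  If `x z` is heavy: if `hd x ≤ D` and `hd z ≤ D` then `tB` with `(v, g, u) = (x, z, y)`; if
`D < hd x`: hPOC with `(x, y, z)`; if `D < hd z`: hPOC with `(z, y, x)`.  Hypotheses: hCDR hPOA hPOC. -/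
def StPOD : Prop := ∀ (U : Type) [Fintype U] (G : SimpleGraph U) (t : ℕ), Bp G 3 t → 1 ≤ t →
  ∀ ε : ℝ, 0 < ε → ∃ δ : ℝ, 0 < δ ∧ ∃ D : ℕ, ∀ᶠ n : ℕ in atTop,
    ∀ H : Finset (Finset (Fin n)), Fr 2 G H →
      ((H.filter fun E => ¬ Cq (Γr 2 G H) E ∧ ¬ tA (Γr 2 G H) H (Ct (Γr 2 G H) δ) E ∧
        ¬ tB (Γr 2 G H) H (Pt δ D H) E).card : ℝ) ≤ ε * (n : ℝ) ^ 2

/-- PNA (about 80 lines).  Pigeonhole.

Proof.  Remove from `S` the pairs with a component in `C` (at most `2 M n ≤ (ε/2) n²`).  Colour the other pairs `(u, v)`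
with `W u v ∩ C ⊆ C` (at most `2^M` colours): some colour `A'` has at least `ε/2^(M+1) n²` pairs.  hCOM for these
pairs, `ζ = (ε/2^(M+1))^m/2`, `m = Fintype.card ι` (if `ι` is empty take `min` with `1/2`: then `v ∉ C` must be
ensured separately, so assume `Nonempty ι`).  Hypotheses: hCOM. -/
def StPNA : Prop := ∀ (ι : Type) [Fintype ι] [Nonempty ι] (M : ℕ) (ε : ℝ), 0 < ε →
  ∃ ζ : ℝ, 0 < ζ ∧ ∀ᶠ n : ℕ in atTop, ∀ C : Finset (Fin n), C.card ≤ M →
    ∀ (W : Fin n → Fin n → Finset (Fin n)) (S : Finset (Fin n × Fin n)),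
      ε * (n : ℝ) ^ 2 ≤ S.card → ∃ (A' : Finset (Fin n)) (u : ι → Fin n),
        Function.Injective u ∧ (∀ i, u i ∉ C) ∧
        ζ * n ≤ ((univ.filter fun v => v ∉ C ∧ ∀ i, (u i, v) ∈ S ∧
          W (u i) v ∩ C = A').card : ℝ)

/-- PNB (about 200 lines).  Few pairs are served three times.

Proof.  Suppose that there are more than `ε n²` pairs; `S` is the set of these pairs, `W = aa Γ H C`, `ι = Fin 3 ⊕ Fin 3 × Fin t`.
hPNA: `A'`, `u`, and the set `Z` of at least `ζ n` vertices `v`; `aa (u i) v = A'` for all `i` and `v ∈ Z` (`aa ⊆ C`).  Let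
`a' = min 3 |A'|`, `c 1, .., c a'` in `A'`.  For `i ≤ 3 - a'` the set `pp (u (inl i)) v` has at least `3 - a'` elements
(`|aa| + |pp| ≥ 3`), so there are different `g_i(v) ∈ pp (u (inl i)) v` (Hall's theorem
`Finset.all_card_le_biUnion_card_iff_exists_injective`, or greedily).  Remove from `Z` the `v` in the range of `u`, and those
with a partner (relation `P`) in the range of `u` or in `C`: at most `m + m D + M D`, `m = 3 + 3 t` (`Bd`: every vertex is
the partner of at most `D` vertices).  Conflict of `v`, `v'`: a common partner, or `P v v'`: symmetric, at most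
`D² + D` for each `v`.  `EX.FB.indep`: `t` vertices `v_j` without conflicts.  hEMT with `s = 3`: `a i = c i` for `i ≤ a'` and the
`3 - a'` vertices `u (inl i)`; `Q` always true; `χ = u (inr (i, j))` for `i ≤ a'` (`c i ∈ aa (u ..) (v_j)` gives `T3`), and
`χ = g_i(v_j)` otherwise.  All conditions hold: the `u` are different and not in `C`; `g_i(v_j)` is a partner of `v_j`, so not in
the range of `u`, not in `C`, not one of the other `v_j'`, and different for different `j`.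
Hypotheses: hPNA hEMT. -/
def StPNB : Prop := ∀ (U : Type) [Fintype U] (G : SimpleGraph U) (t : ℕ), Bp G 3 t →
  ∀ M D : ℕ, ∀ ε : ℝ, 0 < ε → ∀ᶠ n : ℕ in atTop, ∀ H : Finset (Finset (Fin n)), Fr 2 G H →
    ∀ C : Finset (Fin n), C.card ≤ M → ∀ P : Fin n → Fin n → Prop, Bd D P →
      (((univ : Finset (Fin n × Fin n)).filter fun q =>
        3 ≤ (aa (Γr 2 G H) H C q.1 q.2).card + (pp (Γr 2 G H) H P q.1 q.2).card).card : ℝ) ≤
        ε * (n : ℝ) ^ 2

/-- COV (about 80 lines).  Covering.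

Proof.  We may assume `δ ≤ 1` and `n ≥ 1`.  For every `i` there is `U` with `U.card ≤ i` such that at most `(1 - δ)^i n` vertices
are in the set; induction on `i`: if `X` is the set for `U` then `∑ v ∈ X, |{u | R u v}| ≥ δ n |X|`, so some `u` has `R u v` for
at least `δ |X|` vertices of `X`; add `u`.  Choose `i` with `(1 - δ)^i ≤ ε`.  Hypotheses: none. -/
def StCOV : Prop := ∀ δ : ℝ, 0 < δ → ∀ ε : ℝ, 0 < ε → ∃ M : ℕ, ∀ (n : ℕ)
  (R : Fin n → Fin n → Prop), ∃ X : Finset (Fin n), X.card ≤ M ∧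
    ((univ.filter fun v => δ * n ≤ ((univ.filter fun u => R u v).card : ℝ) ∧
      ∀ u ∈ X, ¬ R u v).card : ℝ) ≤ ε * n

/-- XUB (about 150 lines).  The vertices served with `u` form a thin set.

Proof.  `D' = t (D² + D + 1) + 2 D`; `X = {v | ∃ g, P g v ∧ T3 H u v g}`, `g(v)` such a vertex.  Claim: for `y ≠ z` different from
`u` fewer than `D' + 1` vertices `v ∈ X` are adjacent (in `Γ`) to `y` and `z`.  Otherwise remove those which have `y` or
`z` as a partner (at most `2 D`); conflicts as in PNB (common partner, or `P v v'`), `EX.FB.indep`: `t` vertices `v_j` without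
conflicts.  hEMT with `a = (y, z, u)`, `Q i j` iff `i = 2`, `χ i j = g(v_j)`: a copy of `G⁺`, a contradiction to `Fr`.  Now count
the pairs `(v, B)`, `v ∈ X`, `B ⊆ (nb Γ univ v).erase u`, `B.card = 2`: at least `(dg Γ univ v - 1).choose 2` for every `v`, and at
most `D'` for every `B`.  Hypotheses: hEMT. -/
def StXUB : Prop := ∀ (U : Type) [Fintype U] (G : SimpleGraph U) (t : ℕ), Bp G 3 t →
  ∀ D : ℕ, ∃ D' : ℕ, ∀ (V : Type) [Fintype V] (H : Finset (Finset V)), Fr 2 G H →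
    ∀ P : V → V → Prop, Bd D P → ∀ u : V,
      ∑ v ∈ univ.filter (fun v => ∃ g, P g v ∧ T3 H u v g),
        (dg (Γr 2 G H) univ v - 1).choose 2 ≤ D' * (Fintype.card V).choose 2

/-- CWT (about 80 lines).  Counting the served pairs.

Proof.  Each edge of the filter gives two triples `(u, v, z)` with `{u, v, z} = E` and `z ∈ aa u v ∪ pp u v` (disjoint,
because `z ∈ aa` is adjacent to `u` and `z ∈ pp` is not): `tA`, `E = {c, x, y}`: `(x, y, c)` and `(y, x, c)`; `tB`,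
`E = {v, g, u}`: `(u, v, g)` and `(u, g, v)` (`P` is symmetric).  Different edges give different triples.
Hypotheses: none. -/
def StCWT : Prop := ∀ (V : Type) [Fintype V] (Γ : SimpleGraph V) (H : Finset (Finset V))
  (C : Finset V) (P : V → V → Prop), (∀ g v, P g v → P v g) →
  2 * (H.filter fun E => tA Γ H C E ∨ tB Γ H P E).card ≤
    ∑ q : V × V, ((aa Γ H C q.1 q.2).card + (pp Γ H P q.1 q.2).card)

/-- The covered vertices. -/
def Yy {V : Type} [Fintype V] (Γ : SimpleGraph V) (H : Finset (Finset V)) (C : Finset V)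
    (P : V → V → Prop) (X : Finset V) : Finset V :=
  univ.filter fun v => (∃ c ∈ C, Γ.Adj c v) ∨ ∃ u ∈ X, ∃ g, P g v ∧ T3 H u v g

/-- WGT (about 120 lines).  The weights.

Proof.  `N = sN 2 G`, `ε₁ = ε/(3 N + 3)`, `M'` from hCOV for `ε₁`, `ε₁`; `X` for `R u v`: `pp Γ H P u v` is not empty.  For all `u`,
`v`: `|aa| + |pp| ≤ N` (if `u v` is a poor pair then `aa` and `pp` are disjoint subsets of `{w | T3 H u v w}`, and
`cd H u v < N` by hCDR; otherwise both are empty).  Exceptional pairs: (i) `|aa| + |pp| ≥ 3`: at most `ε₁ n²` (hPNB); (ii)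
`v ∉ Yy` and `aa ∪ pp` not empty: then `aa` is empty, `R u v`, and either `|{u | R u v}| < ε₁ n` (at most `ε₁ n²` pairs) or `v` is in
the set of hCOV (at most `ε₁ n²` pairs).  All other pairs contribute at most `2`, and only if `v ∈ Yy`.
Hypotheses: hCDR hPNB hCOV. -/
def StWGT : Prop := ∀ (U : Type) [Fintype U] (G : SimpleGraph U) (t : ℕ), Bp G 3 t →
  ∀ M D : ℕ, ∀ ε : ℝ, 0 < ε → ∃ M' : ℕ, ∀ᶠ n : ℕ in atTop, ∀ H : Finset (Finset (Fin n)),
    Fr 2 G H → ∀ C : Finset (Fin n), C.card ≤ M → ∀ P : Fin n → Fin n → Prop, Bd D P →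
      ∃ X : Finset (Fin n), X.card ≤ M' ∧
        ((∑ q : Fin n × Fin n, ((aa (Γr 2 G H) H C q.1 q.2).card +
          (pp (Γr 2 G H) H P q.1 q.2).card) : ℕ) : ℝ) ≤
          2 * n * (Yy (Γr 2 G H) H C P X).card + ε * (n : ℝ) ^ 2

/-- KMY (about 80 lines).  Few triangles of rich pairs meet the covered vertices.

Proof.  `Yy` is the union of the sets `nb Γ univ c`, `c ∈ C`, and `{v | ∃ g, P g v ∧ T3 H u v g}`, `u ∈ X`.  `km` of a union is at most
the sum.  hKME with `r = 3` (`(3).choose 2 = 3`), `D₁ = max (t - 1) D'`, `ε/(M + M' + 1)`: the condition holds by hNBC (hKFG,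
hRGF) and hXUB.  Hypotheses: hKFG hRGF hNBC hKME hXUB. -/
def StKMY : Prop := ∀ (U : Type) [Fintype U] (G : SimpleGraph U) (t : ℕ), Bp G 3 t → 1 ≤ t →
  ∀ M D M' : ℕ, ∀ ε : ℝ, 0 < ε → ∀ᶠ n : ℕ in atTop, ∀ H : Finset (Finset (Fin n)), Fr 2 G H →
    ∀ C : Finset (Fin n), C.card ≤ M → ∀ P : Fin n → Fin n → Prop, Bd D P →
    ∀ X : Finset (Fin n), X.card ≤ M' →
      (km (Γr 2 G H) 3 (Yy (Γr 2 G H) H C P X) : ℝ) ≤ ε * (n : ℝ) ^ 2

/-- MIB (about 150 lines).  The main inequality for `r = 3`.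

Proof.  `t ≥ 1` because `G ≠ ⊥`.  `δ`, `D` from hPOD for `ε/5`, `M` from hCEN (`s = 3`; hKFG, hRGF), `M'` from hWGT for `ε/5`.  If
`exr = 0` take `x = 0`.  Otherwise `H` from `EX.exr_spec`, `Γ = Γr 2 G H`, `C = Ct Γ δ`, `P = Pt δ D H` (`pt_bd`), `X` from hWGT,
`Y = Yy Γ H C P X`, `x = Y.card`.  (1) `¬ Cq`, `¬ tA`, `¬ tB`: at most `(ε/5) n²`.  (2) `tA` or `tB`: hCWT, hWGT: at most
`n x + (ε/5) n²`, and `n x ≤ 2 (C(n,2) - C(n-x,2)) + n` because `2 (C(n,2) - C(n-x,2)) = x (2 n - x - 1) ≥ x (n - 1)`.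
(3) `Cq`: cliques of `Γ` with three vertices: in the complement of `Y` at most `exK (n-x) 3 G` (hKEX, hRGF), those which
meet `Y`: at most `(ε/5) n²` (hKMY).  Hypotheses: hKFG hRGF hCEN hKEX hPOD hCWT hWGT hKMY. -/
def StMIB : Prop := ∀ (U : Type) [Fintype U] (G : SimpleGraph U) (t : ℕ), Bp G 3 t → G ≠ ⊥ →
  MI 3 3 G

/-! ## Part 5: the end -/

/-- BET (about 100 lines).  The upper bound.

Proof.  `β ≥ 0`, because otherwise `exK n r G < 0` for large `n`.  For `ε₁ = ε/3` there is `K₁` with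
`exK m r G ≤ (β + ε₁) C(m,r-1) + K₁` for all `m`.  So by `MI` the number is at most
`(σ-1)(C(n,r-1) - C(n-x,r-1)) + (β + ε₁) C(n-x,r-1) + K₁ + ε₂ n^(r-1)`, at most
`(max (σ-1) β + ε₁) C(n,r-1) + K₁ + ε₂ n^(r-1)` (`C(n-x,r-1) ≤ C(n,r-1)`), and for large `n` the last two terms are at most
`(2ε/3) C(n,r-1)` (`n^(r-1) ≤ c C(n,r-1)`, `EX.UB.choose_ge`; `C(n,r-1) → ∞`).  Hypotheses: none. -/
def StBET : Prop := ∀ (U : Type) [Fintype U] (G : SimpleGraph U) (r σ : ℕ), 2 ≤ r → 1 ≤ σ →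
  MI r σ G → ∀ β : ℝ, (∀ ε : ℝ, 0 < ε → ∀ᶠ n : ℕ in atTop,
    (exK n r G : ℝ) ≤ (β + ε) * (n.choose (r - 1) : ℝ)) →
  ∀ ε : ℝ, 0 < ε → ∀ᶠ n : ℕ in atTop, (exr r n (expansion r G) : ℝ) ≤
    (max ((σ : ℝ) - 1) β + ε) * (n.choose (r - 1) : ℝ)

/-- CRK (about 80 lines).  The crosscut number of `K_{s,t}`.

Proof.  `≤`: `EX.crosscut_le_cost` for the side with `s` vertices (cost `s`, no edges remain).  `≥`: `EX.exists_opt`: an independent
`I` with `cost G I = crosscutNumber`.  `I` is contained in one side: if `I` has `i ≤ s` vertices of the first side then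
the `(s - i) t ≥ s - i` edges at the other vertices of this side do not meet `I`; if `I` has `i ≤ t` vertices of the second
side then the `s (t - i) ≥ t - i` edges at the others do not meet `I`, and `t ≥ s`.  (An injection of the `s - i` vertices into
the edges that avoid `I` is enough.)  Hypotheses: none. -/
def StCRK : Prop := ∀ r s t : ℕ, 3 ≤ r → 1 ≤ s → s ≤ t →
  crosscutNumber (expansion r (completeBipartiteGraph (Fin s) (Fin t))) = s

end

end Pool.Agent.Helper7.KT
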